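import Pool.Agent.Helper55_CRT.Bai

/-!
# Cartan subgroup actions on SL(n,R)/SL(n,Z) are not locally rigid

For every `n ≥ 2` and every nontrivial subgroup `A` of the group `D` of positive diagonal matrices
of `SL(n,R)` there are smooth actions of `A` on `SL(n,R)/SL(n,Z)`, arbitrarily close to the action by
left translations in the uniform `C^1` distance of the right invariant framing, that are not
smoothly conjugate to the action by left translations through any homomorphism `ρ : A → SL(n,R)`.

The definitions (`G`, `Gam`, `X`, `mk`, `D`, `IsLift`, `Smooth`, `SmoothAction`, `C1Close`) are in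
`Pool.Agent.Helper55_CRT.Defs`.
-/

open scoped ContDiff Matrix.Norms.Operator

namespace Pool.Agent.Results.MP_6bfaa3_an.NonuniformCartan

open Pool.Agent.CRT

/-- `G n = SL(n,R)`, `X n = SL(n,R)/SL(n,Z)`, `D n` the positive diagonal matrices, `A ≠ 1` any
subgroup of `D n`, `K` any compact subset of `A`, `ε > 0`: there is a smooth action `α` of `A` on
`X n` with `α(a)` uniformly `ε`-close in `C^1` to the left translation by `a` for all `a ∈ K`, and no
smooth diffeomorphism `h` of `X n` conjugates `α` to the action by left translations through any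
homomorphism `ρ : A → SL(n,R)`. -/
theorem result (n : ℕ) (hn : 2 ≤ n) (A : Subgroup (G n)) (hA : A ≤ D n) (hA1 : A ≠ ⊥)
    (K : Set A) (hK : IsCompact K) (ε : ℝ) (hε : 0 < ε) :
    ∃ α : SmoothAction A,
      (∀ a ∈ K, C1Close ε (α.act a) (fun x => (a : G n) • x)) ∧
      ∀ (ρ : A →* G n) (h : X n ≃ X n), Smooth h → Smooth h.symm →
        ¬ ∀ (a : A) (x : X n), h (α.act a x) = ρ a • h x :=
  fin_stmt n hn A hA hA1 K hK ε hε

end Pool.Agent.Results.MP_6bfaa3_an.NonuniformCartan
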